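import Pool.Agent.Lib.MP_9a76ab_an.Final

/-! MP_9a76ab_an, Q1: the isomorphism class of the Hecke von Neumann algebra
`L(BS(m,n)//⟨a⟩)`, `n > |m| > 2`, depends only on `|m|/n`.

The proof: the commutant of the quasi-regular representation is compared, through corners of an
algebra on a larger Hilbert space, with an algebra in standard form (matrix units, one free Haar
letter of size `n1 × m1`, where `|m|/n = m1/n1` in lowest terms, and infinitely many free Haar
unitaries), and this algebra depends only on `m1`, `n1`. -/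

set_option autoImplicit false

namespace Pool.Agent.Results.MP_9a76ab_an.RatioOnly

noncomputable section

/-! ### The Hecke von Neumann algebra of a pair `Λ ≤ Γ` -/

/-- The Hilbert space `ℓ²(X)` of square summable complex functions on `X`. -/
abbrev ell2 (X : Type) : Type := lp (fun _ : X => ℂ) 2

theorem memlp_comp {X : Type} (σ : Equiv.Perm X) (f : ell2 X) :
    Memℓp (fun x => (f (σ x) : ℂ)) 2 := by
  have h := lp.memℓp f
  rw [memℓp_gen_iff (by norm_num)] at h ⊢
  exact (Equiv.summable_iff σ).2 h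

/-- The unitary of `ℓ²(X)` defined by a permutation `σ` of `X`: `(permIso σ f)(x) = f(σ⁻¹ x)`. -/
def permIso {X : Type} (σ : Equiv.Perm X) : ell2 X →ₗᵢ[ℂ] ell2 X where
  toFun := fun f => ⟨fun x => f (σ.symm x), memlp_comp σ.symm f⟩
  map_add' := fun f h => by ext x; rfl
  map_smul' := fun c f => by ext x; rfl
  norm_map' := fun f => by
    rw [lp.norm_eq_tsum_rpow (by norm_num), lp.norm_eq_tsum_rpow (by norm_num)]
    congr 1
    exact Equiv.tsum_eq σ.symm (fun x => ‖f x‖ ^ (ENNReal.toReal 2))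

/-- The same as a bounded operator. -/
def permOp {X : Type} (σ : Equiv.Perm X) : ell2 X →L[ℂ] ell2 X :=
  (permIso σ).toContinuousLinearMap

/-- The quasi-regular representation of `Γ` on `ℓ²(Γ/Λ)`: `(quasiReg Λ g f)(x) = f(g⁻¹ x)`. -/
def quasiReg {Γ : Type} [Group Γ] (Λ : Subgroup Γ) (g : Γ) :
    ell2 (Γ ⧸ Λ) →L[ℂ] ell2 (Γ ⧸ Λ) :=
  permOp (MulAction.toPerm g)

/-- The commutant of a set `S` of operators and their adjoints, as a von Neumann algebra. -/
def commutantVN {H : Type} [NormedAddCommGroup H] [InnerProductSpace ℂ H] [CompleteSpace H]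
    (S : Set (H →L[ℂ] H)) : VonNeumannAlgebra H where
  toStarSubalgebra := StarSubalgebra.centralizer ℂ S
  centralizer_centralizer' := by
    change Set.centralizer (Set.centralizer ((StarSubalgebra.centralizer ℂ
      S : StarSubalgebra ℂ (H →L[ℂ] H)) : Set (H →L[ℂ] H))) = _
    rw [StarSubalgebra.coe_centralizer, Set.centralizer_centralizer_centralizer]
    rfl

/-- The Hecke von Neumann algebra `L(Γ//Λ)`: the commutant of the quasi-regular representation
of `Γ` on `ℓ²(Γ/Λ)`. -/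
def heckeVN {Γ : Type} [Group Γ] (Λ : Subgroup Γ) : VonNeumannAlgebra (ell2 (Γ ⧸ Λ)) :=
  commutantVN (Set.range (quasiReg Λ))

/-! ### The Baumslag-Solitar groups -/

/-- The relator of `BS(m,n)`: `t a^m t⁻¹ (a^n)⁻¹`; the generator `a` is `false`, the generator
`t` is `true`. -/
def relator (m n : ℤ) : FreeGroup Bool :=
  FreeGroup.of true * FreeGroup.of false ^ m * (FreeGroup.of true)⁻¹ *
    (FreeGroup.of false ^ n)⁻¹

/-- The Baumslag-Solitar group `BS(m,n) = ⟨a, t | t a^m t⁻¹ = a^n⟩`. -/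
def BS (m n : ℤ) : Type := PresentedGroup ({relator m n} : Set (FreeGroup Bool))

instance (m n : ℤ) : Group (BS m n) :=
  inferInstanceAs (Group (PresentedGroup ({relator m n} : Set (FreeGroup Bool))))

/-- The generator `a` of `BS(m,n)`. -/
def genA (m n : ℤ) : BS m n :=
  PresentedGroup.of (rels := ({relator m n} : Set (FreeGroup Bool))) false

/-- The cyclic subgroup `⟨a⟩` of `BS(m,n)`. -/
def cyclicA (m n : ℤ) : Subgroup (BS m n) := Subgroup.zpowers (genA m n)

/-! ### Isomorphism -/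

/-- The operator `U T U⁻¹`. -/
def conj {H K : Type} [NormedAddCommGroup H] [InnerProductSpace ℂ H] [NormedAddCommGroup K]
    [InnerProductSpace ℂ K] (U : H ≃ₗᵢ[ℂ] K) (T : H →L[ℂ] H) : K →L[ℂ] K :=
  (U.toContinuousLinearEquiv : H →L[ℂ] K).comp
    (T.comp (U.symm.toContinuousLinearEquiv : K →L[ℂ] H))

/-- Two von Neumann algebras `M` on `H` and `N` on `K` are spatially isomorphic: there is a
unitary `U : H → K` such that `U M U⁻¹ = N`. (Then `T ↦ U T U⁻¹` is a *-isomorphism of `M` onto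
`N`; this remark is the theorem `lift_iso` of the imported file.) -/
def SpatiallyIsomorphic {H K : Type} [NormedAddCommGroup H] [InnerProductSpace ℂ H]
    [CompleteSpace H] [NormedAddCommGroup K] [InnerProductSpace ℂ K] [CompleteSpace K]
    (M : VonNeumannAlgebra H) (N : VonNeumannAlgebra K) : Prop :=
  ∃ U : H ≃ₗᵢ[ℂ] K, ∀ T : H →L[ℂ] H, T ∈ M ↔ conj U T ∈ N

theorem heckeVN_eq {Γ : Type} [Group Γ] (Λ : Subgroup Γ) :
    (heckeVN Λ).toStarSubalgebra = Pool.Agent.MP9a76ab.HeckeVN Λ := by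
  have h : (quasiReg Λ : Γ → _) = Pool.Agent.MP9a76ab.quasiReg Λ := by
    funext g
    rfl
  change StarSubalgebra.centralizer ℂ (Set.range (quasiReg Λ)) = _
  rw [h]
  rfl

/-- **Q1: yes.** For `n > |m| > 2`, `n' > |m'| > 2` and `|m|/n = |m'|/n'` the Hecke von Neumann
algebras of `(BS(m,n), ⟨a⟩)` and `(BS(m',n'), ⟨a⟩)` are isomorphic, even spatially: there is a
unitary `U : ℓ²(BS(m,n)/⟨a⟩) → ℓ²(BS(m',n')/⟨a⟩)` such that `T ↦ U T U⁻¹` maps
the first algebra onto the second. -/
theorem result (m n m' n' : ℤ) (hm : 2 < |m|) (hn : |m| < n) (hm' : 2 < |m'|) (hn' : |m'| < n')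
    (h : (|m| : ℝ) / (n : ℝ) = (|m'| : ℝ) / (n' : ℝ)) :
    SpatiallyIsomorphic (heckeVN (cyclicA m n)) (heckeVN (cyclicA m' n')) := by
  have key : ∃ (U : ell2 (BS m n ⧸ cyclicA m n) ≃ₗᵢ[ℂ] ell2 (BS m' n' ⧸ cyclicA m' n')),
      ∀ T, T ∈ Pool.Agent.MP9a76ab.HeckeVN (cyclicA m n) ↔
        U.conjStarAlgEquiv T ∈ Pool.Agent.MP9a76ab.HeckeVN (cyclicA m' n') :=
    Pool.Agent.MP9a76ab.ratio_only m n m' n' hm hn hm' hn' h
  obtain ⟨U, hU⟩ := key
  rw [← heckeVN_eq, ← heckeVN_eq] at hU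
  exact ⟨U, fun T => hU T⟩

end

end Pool.Agent.Results.MP_9a76ab_an.RatioOnly
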